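import Pool.Agent.Q255.Median

/-!
# A diametral pair of a median graph that does not extend to a triametral triple (MP_371ff7_co)
-/

set_option maxRecDepth 100000

namespace Pool.Agent.Results.MP_371ff7_co.NotExtendable

open Pool.Agent.Q255.Median

/-- `G` is a median graph: it is connected and for all `u, v, w` exactly one vertex `x` lies on
shortest paths between `u` and `v`, between `u` and `w`, and between `v` and `w` (membership in the
interval `[u, v]` is expressed by `dist u x + dist x v = dist u v`). -/
def IsMedianGraph {V : Type*} (G : SimpleGraph V) : Prop :=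
  G.Connected ∧ ∀ u v w : V, ∃! x : V, (G.dist u x + G.dist x v = G.dist u v ∧
    G.dist u x + G.dist x w = G.dist u w ∧ G.dist v x + G.dist x w = G.dist v w)

/-- The sum of the three pairwise distances. -/
noncomputable def dist3 {V : Type*} (G : SimpleGraph V) (a b c : V) : ℕ :=
  G.dist a b + G.dist b c + G.dist a c

/-- The triple `a, b, c` is triametral: `dist3` attains its maximum there. -/
def IsTriametral {V : Type*} (G : SimpleGraph V) (a b c : V) : Prop :=
  ∀ a' b' c' : V, dist3 G a' b' c' ≤ dist3 G a b c

/-- The pair `x, y` is diametral: `dist` attains its maximum there. -/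
def IsDiametral {V : Type*} (G : SimpleGraph V) (x y : V) : Prop :=
  ∀ u v : V, G.dist u v ≤ G.dist x y

/-- The codes of the vertices in the hypercube of dimension 9. -/
def codes : List ℕ := [0, 32, 16, 48, 8, 40, 24, 56, 28, 60, 42, 58, 62, 49, 57, 61, 59, 63, 113, 170, 284]

/-- Code of a vertex. -/
def code (u : Fin 21) : ℕ := codes.getD u.val 0

/-- Table of distances, 4 bits for each pair. -/
def T : ℕ := 25959842856130368694079660755231624851103160632896691034015073883656839347843708732921375059507000515417312519188391599905289529232482131016380890312641306404625524982409653238568440319578975503393889536513825510547112344174475901530190848676772839574096587419152173181115545347688519692607623206703472485402044376439990699813043573656401961349797688927318658102466948786864183083953203503360924300305365662492877323388486579131992400184423275909726138167069601745088352805315192480315572804428469186742128276095986683758709383440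

/-- Table look-up of the distance. -/
def D (u v : Fin 21) : ℕ := (T >>> (4 * (21 * u.val + v.val))) % 16

/-- The set of codes as a bit set. -/
def S : ℕ := 31082702275611665134711390509176304002856186051678830965195984326969913288357658558721

/-- The example. -/
def G : SimpleGraph (Fin 21) where
  Adj u v := D u v = 1
  symm := ⟨by decide +kernel⟩
  loopless := ⟨by decide +kernel⟩

theorem D_self : ∀ u, D u u = 0 := by decide +kernel

theorem D_symm : ∀ u v, D u v = D v u := by decide +kernel

theorem D_eq : ∀ u v, D u v = hd 9 (code u) (code v) := by decide +kernel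

theorem D_lip : ∀ u w v, G.Adj u w → D u v ≤ D w v + 1 := by
  have : ∀ u w v, D u w = 1 → D u v ≤ D w v + 1 := by decide +kernel
  exact this

theorem D_step : ∀ u v, u ≠ v → ∃ w, G.Adj u w ∧ D w v + 1 = D u v := by
  have : ∀ u v, u ≠ v → ∃ w, D u w = 1 ∧ D w v + 1 = D u v := by decide +kernel
  exact this

theorem dist_eq (u v : Fin 21) : G.dist u v = D u v :=
  (dist_eq_table D_self D_lip D_step u v).2

theorem connected : G.Connected :=
  ⟨fun u v => (dist_eq_table D_self D_lip D_step u v).1⟩

theorem code_lt : ∀ u, code u < 2 ^ 9 := by decide +kernel

theorem code_inj : Function.Injective code := by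
  have : ∀ u v, code u = code v → u = v := by decide +kernel
  exact this

theorem maj_mem : ∀ u v w : Fin 21, S.testBit (maj (code u) (code v) (code w)) = true := by
  decide +kernel

theorem S_spec : ∀ x < 2 ^ 9, S.testBit x = true → ∃ m, code m = x := by
  decide +kernel

theorem maj_lt (a b c k : ℕ) (ha : a < 2 ^ k) (hb : b < 2 ^ k) : maj a b c < 2 ^ k := by
  unfold maj
  exact Nat.or_lt_two_pow (Nat.and_lt_two_pow _ hb)
    (Nat.or_lt_two_pow (lt_of_le_of_lt Nat.and_le_left ha) (lt_of_le_of_lt Nat.and_le_left hb))

theorem isMedian : IsMedianGraph G :=
  ⟨connected, fun u v w => unique_median code code_lt code_inj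
    (fun u v => by rw [dist_eq, D_eq])
    (fun u v w => S_spec _ (maj_lt _ _ _ _ (code_lt u) (code_lt v)) (maj_mem u v w)) u v w⟩

/-- There is a finite median graph with a diametral pair that is contained in no triametral
triple. -/
theorem result : ∃ (n : ℕ) (G : SimpleGraph (Fin n)), IsMedianGraph G ∧
    ∃ x y : Fin n, IsDiametral G x y ∧ ∀ z : Fin n, ¬ IsTriametral G x y z := by
  refine ⟨21, G, isMedian, 0, 17, ?_, ?_⟩
  · intro u v
    rw [dist_eq, dist_eq]
    revert u v
    decide +kernel
  · intro z h
    have h1 := h 18 19 20
    unfold dist3 at h1
    simp only [dist_eq] at h1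
    have h2 : ∀ z : Fin 21, D 0 17 + D 17 z + D 0 z ≤ 14 := by decide +kernel
    have h3 : D 18 19 + D 19 20 + D 18 20 = 18 := by decide +kernel
    have := h2 z
    omega

end Pool.Agent.Results.MP_371ff7_co.NotExtendable
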